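import Pool.Agent.Helper37.BC.Bes

/-!
# The Bessel function tends to zero (not a result)
-/

set_option autoImplicit false
open MeasureTheory Filter Topology

namespace Pool.Agent.Helper88.Ip

open Pool.Agent.N661.BR (J0)
open Pool.Agent.Helper37.BC

theorem anti_GG : AntitoneOn (fun r => GG r * (r / (2 * r - 1))) (Set.Ici 1) := by
  have hd : ∀ r : ℝ, 1 ≤ r → HasDerivAt (fun r => GG r * (r / (2 * r - 1)))
      (-(J0 r * J0' r / r) * (r / (2 * r - 1)) + GG r * (-1 / (2 * r - 1) ^ 2)) r := by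
    intro r hr
    have h0 : (2 * r - 1 : ℝ) ≠ 0 := by linarith
    have h1 : HasDerivAt (fun r : ℝ => r / (2 * r - 1)) (-1 / (2 * r - 1) ^ 2) r := by
      have h2 : HasDerivAt (fun r : ℝ => 2 * r - 1) 2 r := by
        have h3 := ((hasDerivAt_id' r).const_mul 2).sub_const 1
        rwa [mul_one] at h3
      refine ((hasDerivAt_id' r).fun_div h2 h0).congr_deriv ?_
      congr 1
      ring
    exact (GG_deriv r (by linarith)).fun_mul h1
  refine antitoneOn_of_deriv_nonpos (convex_Ici 1)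
    (fun x hx => (hd x hx).continuousAt.continuousWithinAt)
    (fun x hx => ?_) fun x hx => ?_
  · rw [interior_Ici] at hx
    exact (hd x (le_of_lt hx)).differentiableAt.differentiableWithinAt
  · rw [interior_Ici] at hx
    have hx1 : (1:ℝ) < x := hx
    have h0 : (2 * x - 1 : ℝ) ≠ 0 := by linarith
    have hx0 : x ≠ 0 := by linarith
    rw [(hd x hx1.le).deriv]
    have h3 : -(J0 x * J0' x / x) * (x / (2 * x - 1)) + GG x * (-1 / (2 * x - 1) ^ 2) =
        -(x * (J0 x + J0' x) ^ 2 / (2 * x - 1) ^ 2) := by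
      unfold GG
      field_simp
      ring
    rw [h3, neg_nonpos]
    positivity

/-- J0: the Bessel function tends to zero -/
theorem J0_tendsto : Tendsto J0 atTop (𝓝 0) := by
  have hG : ∀ r : ℝ, 1 ≤ r → J0 r ^ 2 ≤ 4 * GG 1 / r := by
    intro r hr
    have h1 := anti_GG (Set.mem_Ici.2 le_rfl) (Set.mem_Ici.2 hr) hr
    simp only at h1
    have h2 : (1:ℝ) / (2 * 1 - 1) = 1 := by norm_num
    rw [h2, mul_one] at h1
    have h3 : 0 < 2 * r - 1 := by linarith
    have h4 : GG r ≤ GG 1 * ((2 * r - 1) / r) := by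
      have h5 : GG r = GG r * (r / (2 * r - 1)) * ((2 * r - 1) / r) := by
        rw [mul_assoc, div_mul_div_cancel₀ h3.ne', div_self (by linarith), mul_one]
      rw [h5]
      exact mul_le_mul_of_nonneg_right h1 (by positivity)
    have h6 := GG_ge r
    have h7 : (r - 1 / 2) * J0 r ^ 2 ≤ GG 1 * ((2 * r - 1) / r) := by
      have h8 : 0 ≤ (r - 1 / 2) * J0' r ^ 2 := mul_nonneg (by linarith) (sq_nonneg _)
      linarith
    have h9 : GG 1 * ((2 * r - 1) / r) = (r - 1 / 2) * (2 * GG 1 / r) := by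
      field_simp
    rw [h9] at h7
    have h10 := le_of_mul_le_mul_left h7 (by linarith)
    have h11 : 0 ≤ 2 * GG 1 / r := le_trans (sq_nonneg _) h10
    have h12 : 4 * GG 1 / r = 2 * GG 1 / r + 2 * GG 1 / r := by ring
    linarith
  have h1 : Tendsto (fun r : ℝ => 4 * GG 1 / r) atTop (𝓝 0) :=
    tendsto_const_nhds.div_atTop tendsto_id
  have h2 : Tendsto (fun r : ℝ => J0 r ^ 2) atTop (𝓝 0) :=
    squeeze_zero' (Eventually.of_forall fun r => sq_nonneg _)
      ((eventually_ge_atTop 1).mono fun r hr => hG r hr) h1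
  have h3 : Tendsto (fun r : ℝ => Real.sqrt (J0 r ^ 2)) atTop (𝓝 (Real.sqrt 0)) :=
    (Real.continuous_sqrt.tendsto 0).comp h2
  rw [Real.sqrt_zero] at h3
  refine (tendsto_zero_iff_abs_tendsto_zero _).2 (h3.congr fun r => ?_)
  rw [Real.sqrt_sq_eq_abs]
  rfl

end Pool.Agent.Helper88.Ip
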