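import Pool.Agent.Helper26.Ip.Tools
import Pool.Agent.Helper88.Ip.J0

/-!
# Independent parts of stationary waves: symmetric parts (not a result)
-/

set_option autoImplicit false
set_option linter.unusedSectionVars false
open MeasureTheory Filter Topology ProbabilityTheory
open scoped ContDiff ENNReal InnerProductSpace

namespace Pool.Agent.Helper88.Ip

open Pool.Agent.N661.BR (MW J0 IsStationary shift meas_eval meas_shift IsGaussianLaw lin meas_lin)
open Pool.Agent.Helper37.BC
open Pool.Agent.Helper26.Ip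
open Complex (I)

noncomputable section

variable {μ : Measure MW} [IsProbabilityMeasure μ]

theorem inner_V (hs : IsStationary μ) (h2 : Integrable (fun f : MW => f 0 ^ 2) μ) (w w' : ℂ) :
    ⟪V hs h2 w, V hs h2 w'⟫_ℝ = ∫ f : MW, f w * f w' ∂μ := by
  rw [L2.inner_def]
  refine integral_congr_ae ?_
  filter_upwards [V_coe hs h2 w, V_coe hs h2 w'] with f h1 h3
  rw [h1, h3]
  simp [mul_comm]

/-- elements of the closed span of the values which are orthogonal to all values -/
theorem eq_zero_of_inner (hs : IsStationary μ) (h2 : Integrable (fun f : MW => f 0 ^ 2) μ)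
    {a : Lp ℝ 2 μ} (ha : a ∈ values μ) (h : ∀ y, ⟪a, V hs h2 y⟫_ℝ = 0) : a = 0 := by
  have h1 : ∀ g ∈ values μ, ⟪a, g⟫_ℝ = 0 := by
    intro g hg
    refine values_induction hs h2 (p := fun g => ⟪a, g⟫_ℝ = 0) ?_ h ?_ ?_ ?_ hg
    · exact isClosed_eq (continuous_const.inner continuous_id) continuous_const
    · exact inner_zero_right _
    · intro g k hg hk
      rw [inner_add_right, hg, hk, add_zero]
    · intro t g hg
      rw [inner_smul_right, hg, mul_zero]
  exact inner_self_eq_zero.1 (h1 a ha)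

/-- the values converge weakly to zero at infinity -/
theorem weak_zero (hs : IsStationary μ) (h2 : Integrable (fun f : MW => f 0 ^ 2) μ)
    (hcov : ∀ w w' : ℂ, ∫ f : MW, f w * f w' ∂μ = J0 ‖w - w'‖) {v : ℂ} (hv : v ≠ 0) (u : ℂ)
    {a : Lp ℝ 2 μ} (ha : a ∈ values μ) :
    Tendsto (fun s : ℝ => ⟪a, V hs h2 (u + s * v)⟫_ℝ) atTop (𝓝 0) := by
  have hn : ∀ y, ‖V hs h2 y‖ ≤ 1 := by
    intro y
    have h1 : ‖V hs h2 y‖ ^ 2 ≤ 1 ^ 2 := by
      rw [← real_inner_self_eq_norm_sq, inner_V, hcov]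
      exact (le_abs_self _).trans ((J0_le _).trans (by norm_num))
    exact le_of_sq_le_sq h1 (by norm_num)
  refine values_induction hs h2
    (p := fun a => Tendsto (fun s : ℝ => ⟪a, V hs h2 (u + s * v)⟫_ℝ) atTop (𝓝 0)) ?_ ?_ ?_ ?_ ?_ ha
  · refine isClosed_of_closure_subset fun g hg => ?_
    rw [Set.mem_ofPred_eq, Metric.tendsto_nhds]
    intro ε hε
    obtain ⟨g', hg', hd⟩ := Metric.mem_closure_iff.1 hg (ε / 2) (by linarith)
    filter_upwards [(Metric.tendsto_nhds.1 hg') (ε / 2) (by linarith)] with s hs'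
    rw [Real.dist_eq, sub_zero] at hs' ⊢
    have h1 : ⟪g, V hs h2 (u + s * v)⟫_ℝ =
        ⟪g - g', V hs h2 (u + s * v)⟫_ℝ + ⟪g', V hs h2 (u + s * v)⟫_ℝ := by
      rw [← inner_add_left, sub_add_cancel]
    rw [h1]
    have h3 : |⟪g - g', V hs h2 (u + s * v)⟫_ℝ| ≤ ‖g - g'‖ := by
      refine (abs_real_inner_le_norm _ _).trans ?_
      exact mul_le_of_le_one_right (norm_nonneg _) (hn _)
    rw [dist_eq_norm] at hd
    have h4 := abs_add_le ⟪g - g', V hs h2 (u + s * v)⟫_ℝ ⟪g', V hs h2 (u + s * v)⟫_ℝ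
    linarith
  · intro y
    simp_rw [inner_V, hcov]
    refine J0_tendsto.comp ?_
    have h1 : Tendsto (fun s : ℝ => s * ‖v‖ - ‖y - u‖) atTop atTop :=
      tendsto_atTop_add_const_right _ _ (tendsto_id.atTop_mul_const (norm_pos_iff.2 hv))
    refine tendsto_atTop_mono' _ ?_ h1
    filter_upwards [eventually_ge_atTop 0] with s hs0
    have h3 : ‖(s : ℂ) * v‖ = s * ‖v‖ := by
      rw [norm_mul, Complex.norm_real, Real.norm_eq_abs, abs_of_nonneg hs0]
    have h4 : y - (u + s * v) = (y - u) - s * v := by ring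
    rw [h4, ← h3, norm_sub_rev (y - u)]
    exact norm_sub_norm_le ((s : ℂ) * v) (y - u)
  · simp only [inner_zero_left]
    exact tendsto_const_nhds
  · intro g k hg hk
    simp_rw [inner_add_left]
    have := hg.add hk
    rwa [add_zero] at this
  · intro t g hg
    simp_rw [inner_smul_left]
    have := hg.const_mul t
    rw [mul_zero] at this
    exact this

/-- I6 -/
theorem inv_noA (hs : IsStationary μ) (h2 : Integrable (fun f : MW => f 0 ^ 2) μ)
    (hcov : ∀ w w' : ℂ, ∫ f : MW, f w * f w' ∂μ = J0 ‖w - w'‖)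
    (R : ℂ ≃ₗᵢ[ℝ] ℂ) (hR : ∀ y, R (R y) = y) (hne : ∃ y, R y ≠ y) :
    NoInvariant (Submodule.span ℝ
      (Set.range fun y => V hs h2 y + V hs h2 (R y))).topologicalClosure := by
  obtain ⟨y0, hy0⟩ := hne
  intro a ha htr
  have hA : ∀ a' ∈ (Submodule.span ℝ
      (Set.range fun y => V hs h2 y + V hs h2 (R y))).topologicalClosure, ∀ z : ℂ,
      ⟪a', V hs h2 z⟫_ℝ = ⟪a', V hs h2 (R z)⟫_ℝ := by
    intro a' ha' z
    have h1 : (Submodule.span ℝ (Set.range fun y => V hs h2 y + V hs h2 (R y))).topologicalClosure ≤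
        (ℝ ∙ (V hs h2 z - V hs h2 (R z)))ᗮ := by
      refine Submodule.topologicalClosure_minimal _ ?_ (Submodule.isClosed_orthogonal _)
      rw [Submodule.span_le]
      rintro _ ⟨y, rfl⟩
      rw [SetLike.mem_coe, Submodule.mem_orthogonal_singleton_iff_inner_left]
      simp only
      rw [inner_add_left, inner_sub_right, inner_sub_right, inner_V, inner_V, inner_V, inner_V,
        hcov, hcov, hcov, hcov]
      have e1 : ‖R y - R z‖ = ‖y - z‖ := by rw [← map_sub, R.norm_map]
      have e2 : ‖R y - z‖ = ‖y - R z‖ := by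
        rw [← R.norm_map (y - R z), map_sub, hR]
      rw [e1, e2]
      ring
    have h3 := h1 ha'
    rw [Submodule.mem_orthogonal_singleton_iff_inner_left, inner_sub_right, sub_eq_zero] at h3
    exact h3
  have hle : (Submodule.span ℝ
      (Set.range fun y => V hs h2 y + V hs h2 (R y))).topologicalClosure ≤ values μ := by
    refine Submodule.topologicalClosure_minimal _ ?_ values_closed
    rw [Submodule.span_le]
    rintro _ ⟨y, rfl⟩
    exact Submodule.add_mem _ (V_mem hs h2 _) (V_mem hs h2 _)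
  have hav := hle ha
  -- invariance
  have hinv : ∀ u z : ℂ, ⟪a, V hs h2 u⟫_ℝ = ⟪a, V hs h2 (u + (R z - z))⟫_ℝ := by
    intro u z
    obtain ⟨b, hb, hba⟩ := htr (z - u)
    have hbS := eq_S hs hba
    have h1 := hA b hb z
    have e1 : V hs h2 z = S hs (z - u) (V hs h2 u) := by
      rw [S_V hs h2]
      congr 1
      ring
    have e2 : V hs h2 (R z) = S hs (z - u) (V hs h2 (u + (R z - z))) := by
      rw [S_V hs h2]
      congr 1
      ring
    rw [e1, e2, hbS, LinearIsometry.inner_map_map, LinearIsometry.inner_map_map] at h1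
    exact h1
  refine eq_zero_of_inner hs h2 hav fun u => ?_
  have hv : R y0 - y0 ≠ 0 := sub_ne_zero.2 hy0
  have hw := weak_zero hs h2 hcov hv u hav
  have hconst : (fun s : ℝ => ⟪a, V hs h2 (u + s * (R y0 - y0))⟫_ℝ) =
      fun _ => ⟪a, V hs h2 u⟫_ℝ := by
    funext s
    rw [hinv u ((s : ℂ) * y0)]
    congr 2
    have h1 : R ((s : ℂ) * y0) = (s : ℂ) * R y0 := by
      have h3 : (s : ℂ) * y0 = s • y0 := by rw [Complex.real_smul]
      rw [h3, R.map_smul, Complex.real_smul]
    rw [h1]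
    ring
  rw [hconst] at hw
  exact tendsto_nhds_unique tendsto_const_nhds hw

end

end Pool.Agent.Helper88.Ip
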