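import Pool.Agent.Helper26.Ip.Tools
import Pool.Agent.Helper88.Ip.Inv

/-!
# Constant correlations with a stationary wave are zero (not a result)
-/

set_option autoImplicit false
set_option linter.unusedSectionVars false
open MeasureTheory Filter Topology ProbabilityTheory
open scoped ContDiff ENNReal InnerProductSpace

namespace Pool.Agent.Helper88.Ip

open Pool.Agent.N661.BR (MW J0 IsStationary shift meas_eval meas_shift IsGaussianLaw lin meas_lin)
open Pool.Agent.Helper37.BC
open Pool.Agent.Helper26.Ip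
open Complex (I)

noncomputable section

theorem energy_le {r : ℝ} (hr : 1 ≤ r) : J0 r ^ 2 + J0' r ^ 2 ≤ 2 * GG 1 / r := by
  have h1 := anti_GG (Set.mem_Ici.2 le_rfl) (Set.mem_Ici.2 hr) hr
  simp only at h1
  have h2 : (1:ℝ) / (2 * 1 - 1) = 1 := by norm_num
  rw [h2, mul_one] at h1
  have h3 : 0 < 2 * r - 1 := by linarith
  have h4 : GG r ≤ GG 1 * ((2 * r - 1) / r) := by
    have h5 : GG r = GG r * (r / (2 * r - 1)) * ((2 * r - 1) / r) := by
      rw [mul_assoc, div_mul_div_cancel₀ h3.ne', div_self (by linarith), mul_one]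
    rw [h5]
    exact mul_le_mul_of_nonneg_right h1 (by positivity)
  have h6 := GG_ge r
  have h9 : GG 1 * ((2 * r - 1) / r) = (r - 1 / 2) * (2 * GG 1 / r) := by
    field_simp
  rw [h9] at h4
  exact le_of_mul_le_mul_left (h6.trans h4) (by linarith)

theorem int_rJ0 (R : ℝ) : ∫ r in (0:ℝ)..R, r * J0 r = -(R * J0' R) := by
  have h1 : ∀ r : ℝ, HasDerivAt (fun r => -(r * J0' r)) (r * J0 r) r := by
    intro r
    refine (((hasDerivAt_id' r).fun_mul (J0'_deriv r)).fun_neg).congr_deriv ?_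
    have := J0_ode r
    linarith
  have h2 := intervalIntegral.integral_eq_sub_of_hasDerivAt (a := 0) (b := R)
    (fun r _ => h1 r) ((continuous_id'.mul J0_cont).intervalIntegrable _ _)
  rw [h2]
  simp

theorem int_KK {R : ℝ} (hR : 1 ≤ R) : ∫ y, KK R y = -(2 * R * J0' R) / FF R := by
  have h0 := FF_pos hR
  have h1 : ∀ y : ℂ, KK R y = (Metric.ball (0:ℂ) R).indicator
      (fun y => (1 / (Real.pi * FF R)) * J0 ‖y‖) y := by
    intro y
    unfold KK
    by_cases h : y ∈ Metric.ball (0:ℂ) R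
    · rw [Set.indicator_of_mem h, Set.indicator_of_mem h]; ring
    · rw [Set.indicator_of_notMem h, Set.indicator_of_notMem h]
  simp_rw [h1]
  have hc : Continuous fun y : ℂ => J0 ‖y‖ := J0_cont.comp continuous_norm
  rw [integral_indicator Metric.isOpen_ball.measurableSet, integral_const_mul,
    polar hc (by linarith)]
  have h2 : ∫ r in (0:ℝ)..R, r * ∫ θ in (0:ℝ)..(2 * Real.pi), J0 ‖(r:ℂ) * ee θ‖ =
      ∫ r in (0:ℝ)..R, (2 * Real.pi) * (r * J0 r) := by
    refine intervalIntegral.integral_congr fun r hr => ?_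
    rw [Set.uIcc_of_le (by linarith)] at hr
    have hn : ∀ θ : ℝ, ‖(r:ℂ) * ee θ‖ = r := fun θ => by
      rw [norm_mul, ee_norm, mul_one, Complex.norm_real, Real.norm_eq_abs, abs_of_nonneg hr.1]
    show r * ∫ θ in (0:ℝ)..(2 * Real.pi), J0 ‖(r:ℂ) * ee θ‖ = _
    simp_rw [hn]
    rw [intervalIntegral.integral_const, sub_zero, smul_eq_mul]
    ring
  rw [h2, intervalIntegral.integral_const_mul, int_rJ0]
  have := Real.pi_ne_zero
  field_simp

variable {μ : Measure MW} [IsProbabilityMeasure μ]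

/-- constant correlations are zero -/
theorem const_zero (hs : IsStationary μ) (h2 : Integrable (fun f : MW => f 0 ^ 2) μ)
    {Q : MW → ℝ} (hQ : MemLp Q 2 μ) {c : ℝ} (h : ∀ y, UU μ Q y = c) : c = 0 := by
  by_contra hc
  obtain ⟨κ, hκ, hF⟩ := FF_lower
  have h1 : ∀ R : ℝ, 1 ≤ R → FF R = -(2 * R * J0' R) := by
    intro R hR
    have h3 := UU_rep hs h2 hQ hR 0
    simp_rw [h] at h3
    rw [integral_mul_const, int_KK hR] at h3
    have h4 := FF_pos hR
    have h5 : -(2 * R * J0' R) / FF R = 1 := mul_right_cancel₀ hc (by rw [h3, one_mul])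
    rw [div_eq_one_iff_eq h4.ne'] at h5
    exact h5.symm
  have h3 : ∀ R : ℝ, 1 ≤ R → κ ^ 2 / 4 ≤ 2 * GG 1 / R := by
    intro R hR
    have h4 := hF R hR
    rw [h1 R hR] at h4
    have h5 : κ ≤ -(2 * J0' R) := by
      have h6 : κ * R ≤ -(2 * J0' R) * R := by linarith
      exact le_of_mul_le_mul_right h6 (by linarith)
    have h7 : κ ^ 2 / 4 ≤ J0' R ^ 2 := by nlinarith
    have h8 := energy_le hR
    nlinarith [sq_nonneg (J0 R)]
  have h4 : Tendsto (fun R : ℝ => 2 * GG 1 / R) atTop (𝓝 0) :=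
    tendsto_const_nhds.div_atTop tendsto_id
  have h5 : κ ^ 2 / 4 ≤ 0 :=
    ge_of_tendsto h4 ((eventually_ge_atTop 1).mono fun R hR => h3 R hR)
  nlinarith

/-- constant inner products with the values are zero -/
theorem const_inner_zero (hs : IsStationary μ) (h2 : Integrable (fun f : MW => f 0 ^ 2) μ)
    {a : Lp ℝ 2 μ} {c : ℝ} (h : ∀ y, ⟪a, V hs h2 y⟫_ℝ = c) : c = 0 := by
  refine const_zero hs h2 (Lp.memLp a) fun y => ?_
  rw [← h y, L2.inner_def]
  unfold UU
  refine integral_congr_ae ?_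
  filter_upwards [V_coe hs h2 y] with f hf
  rw [hf]
  simp

end

end Pool.Agent.Helper88.Ip
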