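import Pool.Agent.Helper88.Ip.Cst

/-!
# Independent parts of stationary waves: package INV (not a result)
-/

set_option autoImplicit false
set_option linter.unusedSectionVars false
open MeasureTheory Filter Topology ProbabilityTheory
open scoped ContDiff ENNReal InnerProductSpace

namespace Pool.Agent.Helper88.Ip

open Pool.Agent.N661.BR (MW J0 IsStationary shift meas_eval meas_shift IsGaussianLaw lin meas_lin)
open Pool.Agent.Helper37.BC
open Pool.Agent.Helper26.Ip
open Complex (I)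

noncomputable section

variable {μ : Measure MW} [IsProbabilityMeasure μ]

/-- I1 -/
theorem inv_le (hs : IsStationary μ) (h2 : Integrable (fun f : MW => f 0 ^ 2) μ)
    (R : ℂ ≃ₗᵢ[ℝ] ℂ) :
    (Submodule.span ℝ (Set.range fun y => V hs h2 y + V hs h2 (R y))).topologicalClosure ≤
      values μ := by
  refine Submodule.topologicalClosure_minimal _ ?_ values_closed
  rw [Submodule.span_le]
  rintro _ ⟨y, rfl⟩
  exact Submodule.add_mem _ (V_mem hs h2 _) (V_mem hs h2 _)

theorem inv_le' (hs : IsStationary μ) (h2 : Integrable (fun f : MW => f 0 ^ 2) μ)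
    (R : ℂ ≃ₗᵢ[ℝ] ℂ) :
    (Submodule.span ℝ (Set.range fun y => V hs h2 y - V hs h2 (R y))).topologicalClosure ≤
      values μ := by
  refine Submodule.topologicalClosure_minimal _ ?_ values_closed
  rw [Submodule.span_le]
  rintro _ ⟨y, rfl⟩
  exact Submodule.sub_mem _ (V_mem hs h2 _) (V_mem hs h2 _)

/-- orthogonality of the two parts -/
theorem inner_parts (hs : IsStationary μ) (h2 : Integrable (fun f : MW => f 0 ^ 2) μ)
    (R : ℂ ≃ₗᵢ[ℝ] ℂ) (hR : ∀ y, R (R y) = y)
    (hcov : ∀ y z : ℂ, ∫ f : MW, f (R y) * f (R z) ∂μ = ∫ f : MW, f y * f z ∂μ) (y z : ℂ) :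
    ⟪V hs h2 y + V hs h2 (R y), V hs h2 z - V hs h2 (R z)⟫_ℝ = 0 := by
  rw [inner_add_left, inner_sub_right, inner_sub_right, inner_V, inner_V, inner_V, inner_V]
  have e1 := hcov y z
  have e2 := hcov (R y) z
  rw [hR] at e2
  rw [e1, e2]
  ring

theorem mem_closure_orth {E : Type*} [NormedAddCommGroup E] [InnerProductSpace ℝ E]
    {s t : Set E} (h : ∀ x ∈ s, ∀ y ∈ t, ⟪x, y⟫_ℝ = 0) {a b : E}
    (ha : a ∈ (Submodule.span ℝ s).topologicalClosure)
    (hb : b ∈ (Submodule.span ℝ t).topologicalClosure) : ⟪a, b⟫_ℝ = 0 := by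
  have h1 : ∀ x ∈ s, (Submodule.span ℝ t).topologicalClosure ≤ (ℝ ∙ x)ᗮ := by
    intro x hx
    refine Submodule.topologicalClosure_minimal _ ?_ (Submodule.isClosed_orthogonal _)
    rw [Submodule.span_le]
    intro y hy
    rw [SetLike.mem_coe, Submodule.mem_orthogonal_singleton_iff_inner_right]
    exact h x hx y hy
  have h3 : (Submodule.span ℝ s).topologicalClosure ≤ (ℝ ∙ b)ᗮ := by
    refine Submodule.topologicalClosure_minimal _ ?_ (Submodule.isClosed_orthogonal _)
    rw [Submodule.span_le]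
    intro x hx
    rw [SetLike.mem_coe, Submodule.mem_orthogonal_singleton_iff_inner_left]
    have h4 := h1 x hx hb
    rwa [Submodule.mem_orthogonal_singleton_iff_inner_right] at h4
  have h4 := h3 ha
  rwa [Submodule.mem_orthogonal_singleton_iff_inner_left] at h4

/-- every element of the closed span is a sum of the two parts -/
theorem mem_sum (hs : IsStationary μ) (h2 : Integrable (fun f : MW => f 0 ^ 2) μ)
    (R : ℂ ≃ₗᵢ[ℝ] ℂ) (hR : ∀ y, R (R y) = y)
    (hcov : ∀ y z : ℂ, ∫ f : MW, f (R y) * f (R z) ∂μ = ∫ f : MW, f y * f z ∂μ) :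
    ((Submodule.span ℝ (Set.range fun y => V hs h2 y + V hs h2 (R y))).topologicalClosure)ᗮ ⊓
      values μ ≤
      (Submodule.span ℝ (Set.range fun y => V hs h2 y - V hs h2 (R y))).topologicalClosure := by
  set A := (Submodule.span ℝ (Set.range fun y => V hs h2 y + V hs h2 (R y))).topologicalClosure
    with hA
  set B := (Submodule.span ℝ (Set.range fun y => V hs h2 y - V hs h2 (R y))).topologicalClosure
    with hB
  have hAc : IsClosed (A : Set (Lp ℝ 2 μ)) := Submodule.isClosed_topologicalClosure _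
  have hBc : IsClosed (B : Set (Lp ℝ 2 μ)) := Submodule.isClosed_topologicalClosure _
  have hcA : CompleteSpace A := hAc.completeSpace_coe
  have hcB : CompleteSpace B := hBc.completeSpace_coe
  have horth : ∀ a ∈ A, ∀ b ∈ B, ⟪a, b⟫_ℝ = 0 := by
    intro a ha b hb
    refine mem_closure_orth ?_ ha hb
    rintro _ ⟨y, rfl⟩ _ ⟨z, rfl⟩
    exact inner_parts hs h2 R hR hcov y z
  rintro x ⟨hxA, hx⟩
  -- `x - P_B x` is orthogonal to `A` and `B`
  have h1 : x - B.starProjection x ∈ Bᗮ := Submodule.sub_starProjection_mem_orthogonal x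
  have h3 : B.starProjection x ∈ B := Submodule.starProjection_apply_mem B x
  have h4 : ∀ y, ⟪x - B.starProjection x, V hs h2 y⟫_ℝ = 0 := by
    intro y
    have e : V hs h2 y = (1 / 2 : ℝ) • (V hs h2 y + V hs h2 (R y)) +
        (1 / 2 : ℝ) • (V hs h2 y - V hs h2 (R y)) := by
      rw [← smul_add, add_add_sub_cancel, ← two_smul ℝ (V hs h2 y), smul_smul]
      norm_num
    have hyA : V hs h2 y + V hs h2 (R y) ∈ A :=
      Submodule.le_topologicalClosure _ (Submodule.subset_span ⟨y, rfl⟩)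
    have hyB : V hs h2 y - V hs h2 (R y) ∈ B :=
      Submodule.le_topologicalClosure _ (Submodule.subset_span ⟨y, rfl⟩)
    rw [e, inner_add_right, inner_smul_right, inner_smul_right]
    have e1 : ⟪x - B.starProjection x, V hs h2 y + V hs h2 (R y)⟫_ℝ = 0 := by
      rw [inner_sub_left]
      have e2 : ⟪x, V hs h2 y + V hs h2 (R y)⟫_ℝ = 0 := by
        rw [real_inner_comm]
        exact (Submodule.mem_orthogonal _ _).1 hxA _ hyA
      have e3 : ⟪B.starProjection x, V hs h2 y + V hs h2 (R y)⟫_ℝ = 0 := by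
        rw [real_inner_comm]
        exact horth _ hyA _ h3
      rw [e2, e3, sub_zero]
    have e2 : ⟪x - B.starProjection x, V hs h2 y - V hs h2 (R y)⟫_ℝ = 0 := by
      rw [real_inner_comm]
      exact (Submodule.mem_orthogonal _ _).1 h1 _ hyB
    rw [e1, e2]
    norm_num
  have h5 : x - B.starProjection x = 0 :=
    eq_zero_of_inner hs h2 (Submodule.sub_mem _ hx (inv_le' hs h2 R h3)) h4
  rw [sub_eq_zero.1 h5]
  exact h3

/-- I2 -/
theorem inv_perp (hs : IsStationary μ) (h2 : Integrable (fun f : MW => f 0 ^ 2) μ)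
    (R : ℂ ≃ₗᵢ[ℝ] ℂ) (hR : ∀ y, R (R y) = y)
    (hcov : ∀ y z : ℂ, ∫ f : MW, f (R y) * f (R z) ∂μ = ∫ f : MW, f y * f z ∂μ) :
    ((Submodule.span ℝ (Set.range fun y => V hs h2 y + V hs h2 (R y))).topologicalClosure)ᗮ ⊓
      values μ =
      (Submodule.span ℝ (Set.range fun y => V hs h2 y - V hs h2 (R y))).topologicalClosure := by
  refine le_antisymm (mem_sum hs h2 R hR hcov) (le_inf ?_ (inv_le' hs h2 R))
  intro b hb
  rw [Submodule.mem_orthogonal]
  intro a ha
  refine mem_closure_orth ?_ ha hb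
  rintro _ ⟨y, rfl⟩ _ ⟨z, rfl⟩
  exact inner_parts hs h2 R hR hcov y z

/-- I3 (the covariance is even) -/
theorem cov_even (hs : IsStationary μ) (h2 : Integrable (fun f : MW => f 0 ^ 2) μ) (y z : ℂ) :
    ∫ f : MW, f (-y) * f (-z) ∂μ = ∫ f : MW, f y * f z ∂μ := by
  rw [← inner_V hs h2, ← inner_V hs h2]
  have e1 : V hs h2 z = S hs (y + z) (V hs h2 (-y)) := by
    rw [S_V hs h2]
    congr 1
    ring
  have e2 : V hs h2 y = S hs (y + z) (V hs h2 (-z)) := by
    rw [S_V hs h2]
    congr 1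
    ring
  rw [e1, e2, LinearIsometry.inner_map_map, real_inner_comm]

/-- I4 -/
theorem inv_noB (hs : IsStationary μ) (h2 : Integrable (fun f : MW => f 0 ^ 2) μ)
    (R : ℂ ≃ₗᵢ[ℝ] ℂ) (hR : ∀ y, R (R y) = y)
    (hcov : ∀ y z : ℂ, ∫ f : MW, f (R y) * f (R z) ∂μ = ∫ f : MW, f y * f z ∂μ) :
    NoInvariant (Submodule.span ℝ
      (Set.range fun y => V hs h2 y - V hs h2 (R y))).topologicalClosure := by
  intro b hb htr
  refine eq_zero_of_inner hs h2 (inv_le' hs h2 R hb) fun u => ?_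
  obtain ⟨b', hb', hba⟩ := htr (-u)
  have hbS := eq_S hs hba
  have h1 : ⟪V hs h2 0 + V hs h2 (R 0), b'⟫_ℝ = 0 := by
    refine mem_closure_orth (s := Set.range fun y => V hs h2 y + V hs h2 (R y)) ?_
      (Submodule.le_topologicalClosure _ (Submodule.subset_span ⟨0, rfl⟩)) hb'
    rintro _ ⟨y, rfl⟩ _ ⟨z, rfl⟩
    exact inner_parts hs h2 R hR hcov y z
  have e1 : V hs h2 0 = S hs (-u) (V hs h2 u) := by
    rw [S_V hs h2]
    congr 1
    ring
  rw [map_zero, hbS, e1, ← two_smul ℝ, inner_smul_left, LinearIsometry.inner_map_map] at h1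
  have h3 : ⟪V hs h2 u, b⟫_ℝ = 0 := by
    rcases mul_eq_zero.1 h1 with h | h
    · norm_num at h
    · exact h
  rw [real_inner_comm]
  exact h3

/-- I5 -/
theorem inv_noA_neg (hs : IsStationary μ) (h2 : Integrable (fun f : MW => f 0 ^ 2) μ) :
    NoInvariant (Submodule.span ℝ
      (Set.range fun y => V hs h2 y + V hs h2 (-y))).topologicalClosure := by
  intro a ha htr
  let R : ℂ ≃ₗᵢ[ℝ] ℂ := LinearIsometryEquiv.neg ℝ
  have hRd : ∀ y, R y = -y := fun y => rfl
  have hR : ∀ y, R (R y) = y := fun y => by rw [hRd, hRd, neg_neg]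
  have hcov : ∀ y z : ℂ, ∫ f : MW, f (R y) * f (R z) ∂μ = ∫ f : MW, f y * f z ∂μ := fun y z => by
    rw [hRd, hRd]
    exact cov_even hs h2 y z
  have hA : ∀ a' ∈ (Submodule.span ℝ
      (Set.range fun y => V hs h2 y + V hs h2 (-y))).topologicalClosure, ∀ z : ℂ,
      ⟪a', V hs h2 z⟫_ℝ = ⟪a', V hs h2 (-z)⟫_ℝ := by
    intro a' ha' z
    have h1 : ⟪a', V hs h2 z - V hs h2 (-z)⟫_ℝ = 0 := by
      refine mem_closure_orth (t := Set.range fun y => V hs h2 y - V hs h2 (-y)) ?_ ha'
        (Submodule.le_topologicalClosure _ (Submodule.subset_span ⟨z, rfl⟩))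
      rintro _ ⟨y, rfl⟩ _ ⟨z, rfl⟩
      exact inner_parts hs h2 R hR hcov y z
    rwa [inner_sub_right, sub_eq_zero] at h1
  have hav := inv_le hs h2 R ha
  have hinv : ∀ u : ℂ, ⟪a, V hs h2 u⟫_ℝ = ⟪a, V hs h2 0⟫_ℝ := by
    intro u
    obtain ⟨b, hb, hba⟩ := htr (-(u / 2))
    have hbS := eq_S hs hba
    have h1 := hA b hb (u / 2)
    have e1 : V hs h2 (u / 2) = S hs (-(u / 2)) (V hs h2 u) := by
      rw [S_V hs h2]
      congr 1
      ring
    have e2 : V hs h2 (-(u / 2)) = S hs (-(u / 2)) (V hs h2 0) := by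
      rw [S_V hs h2]
      congr 1
      ring
    rw [e1, e2, hbS, LinearIsometry.inner_map_map, LinearIsometry.inner_map_map] at h1
    exact h1
  have h0 := const_inner_zero hs h2 hinv
  refine eq_zero_of_inner hs h2 hav fun u => ?_
  rw [hinv u, h0]

end

end Pool.Agent.Helper88.Ip
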