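import Pool.Agent.Helper88.Ip.Pw2b
import Pool.Agent.Helper88.Ip.Inv2
import Pool.Agent.Helper72.Ip.PW1

/-!
# No invariant elements in sums of partial waves (not a result)
-/

set_option autoImplicit false
set_option linter.unusedSectionVars false
open MeasureTheory Filter Topology ProbabilityTheory
open scoped ContDiff ENNReal InnerProductSpace

namespace Pool.Agent.Helper88.Ip

open Pool.Agent.N661.BR (MW J0 IsStationary shift meas_eval meas_shift IsGaussianLaw lin meas_lin)
open Pool.Agent.Helper37.BC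
open Pool.Agent.Helper26.Ip
open Pool.Agent.Helper72.Ip (PW PWS pw_inner pw_sin pw_orth pws_le)
open Complex (I)

noncomputable section

variable {μ : Measure MW} [IsProbabilityMeasure μ]

/-- X4 -/
theorem pws_noInv (hs : IsStationary μ) (h2 : Integrable (fun f : MW => f 0 ^ 2) μ)
    (hcov : ∀ w w' : ℂ, ∫ f : MW, f w * f w' ∂μ = J0 ‖w - w'‖) (N : Set ℕ) {m : ℕ} (hm : m ∉ N) :
    NoInvariant (PWS hs h2 N) := by
  intro a ha htr
  have hav : a ∈ values μ := pws_le hs h2 N ha
  have horth : ∀ b ∈ PWS hs h2 N, ∀ y, ⟪PW hs h2 m y, b⟫_ℝ = 0 := by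
    intro b hb y
    refine mem_closure_orth (s := {PW hs h2 m y})
      (t := Set.range fun p : N × ℂ => PW hs h2 p.1 p.2) ?_
      (Submodule.le_topologicalClosure _ (Submodule.subset_span rfl)) hb
    rintro _ rfl _ ⟨⟨n, z⟩, rfl⟩
    refine pw_orth hs h2 hcov (fun h => hm ?_) y z
    rw [h]
    exact n.2
  have hb : ∀ x : ℂ, S hs (-x) a ∈ PWS hs h2 N := by
    intro x
    obtain ⟨b, hb, hba⟩ := htr (-x)
    rw [← eq_S hs hba]
    exact hb
  have hV : ∀ x w : ℂ, ⟪V hs h2 (x + w), a⟫_ℝ = ⟪V hs h2 w, S hs (-x) a⟫_ℝ := by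
    intro x w
    have e1 : V hs h2 w = S hs (-x) (V hs h2 (x + w)) := by
      rw [S_V hs h2]
      congr 1
      ring
    rw [e1, LinearIsometry.inner_map_map]
  have hU : ∀ w, ⟪V hs h2 w, a⟫_ℝ = UU μ a w := by
    intro y
    rw [L2.inner_def]
    unfold UU
    refine integral_congr_ae ?_
    filter_upwards [V_coe hs h2 y] with f hf
    rw [hf]
    simp [mul_comm]
  have hcont : Continuous fun w => ⟪V hs h2 w, a⟫_ℝ := by
    have := UU_cont hs h2 (Lp.memLp a)
    refine this.congr fun w => (hU w).symm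
  refine eq_zero_of_inner hs h2 hav fun u => ?_
  rw [real_inner_comm]
  refine graf (fun w => ⟪V hs h2 w, a⟫_ℝ) hcont (fun z r hr => V_mean hs h2 a z hr) m
    (fun x y => ?_) (fun x y => ?_) u
  · have h1 := pw_inner hs h2 m y (S hs (-x) a)
    rw [horth _ (hb x) y] at h1
    refine Eq.trans ?_ h1.symm
    simp only [hV]
  · have h1 := pw_sin hs h2 m (S hs (-x) a) (horth _ (hb x)) y
    refine Eq.trans ?_ h1
    simp only [hV]

end

end Pool.Agent.Helper88.Ip
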