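import Pool.Agent.Helper88.Ip.Cst

/-!
# Graf's addition theorem, weak form (not a result)
-/

set_option autoImplicit false
set_option linter.unusedSectionVars false
open MeasureTheory Filter Topology ProbabilityTheory
open scoped ContDiff ENNReal InnerProductSpace

namespace Pool.Agent.Helper88.Ip

open Pool.Agent.N661.BR (MW J0 IsStationary shift meas_eval meas_shift IsGaussianLaw lin meas_lin)
open Pool.Agent.Helper37.BC
open Pool.Agent.Helper26.Ip
open Complex (I)

noncomputable section

theorem swap {F : ℝ → ℝ → ℝ} (hF : Continuous (Function.uncurry F)) (a b c d : ℝ) :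
    ∫ x in a..b, ∫ y in c..d, F x y = ∫ y in c..d, ∫ x in a..b, F x y := by
  refine intervalIntegral_intervalIntegral_swap ?_
  refine (hF.continuousOn.integrableOn_compact
    ((isCompact_uIcc (a := a) (b := b)).prod (isCompact_uIcc (a := c) (b := d)))).mono_set ?_
  exact Set.prod_mono Set.uIoc_subset_uIcc Set.uIoc_subset_uIcc

/-- shift of a periodic function -/
theorem per_shift {f : ℝ → ℝ} (hf : Function.Periodic f (2 * Real.pi)) (c : ℝ) :
    ∫ t in (0:ℝ)..(2 * Real.pi), f (t + c) = ∫ t in (0:ℝ)..(2 * Real.pi), f t := by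
  rw [intervalIntegral.integral_comp_add_right (f := f) (d := c), zero_add, add_comm (2 * Real.pi)]
  have := hf.intervalIntegral_add_eq c 0
  rw [zero_add] at this
  exact this

/-- reflection of a periodic function -/
theorem per_refl {f : ℝ → ℝ} (hf : Function.Periodic f (2 * Real.pi)) (c : ℝ) :
    ∫ t in (0:ℝ)..(2 * Real.pi), f (c - t) = ∫ t in (0:ℝ)..(2 * Real.pi), f t := by
  rw [intervalIntegral.integral_comp_sub_left (f := f) (d := c), sub_zero]
  have := hf.intervalIntegral_add_eq (c - 2 * Real.pi) 0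
  rw [zero_add, sub_add_cancel] at this
  exact this

theorem cos_per (m : ℕ) (t : ℝ) : Real.cos (m * (t + 2 * Real.pi)) = Real.cos (m * t) := by
  rw [mul_add]
  exact Real.cos_add_nat_mul_two_pi (m * t) m

theorem sin_per (m : ℕ) (t : ℝ) : Real.sin (m * (t + 2 * Real.pi)) = Real.sin (m * t) := by
  rw [mul_add]
  exact Real.sin_add_nat_mul_two_pi (m * t) m

/-- the Bessel function at the norm of a complex number -/
theorem J0_norm (w : ℂ) : 2 * Real.pi * J0 ‖w‖ =
    ∫ θ in (0:ℝ)..(2 * Real.pi), Real.cos (w.re * Real.cos θ + w.im * Real.sin θ) := by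
  have h1 : ∀ θ : ℝ, w.re * Real.cos θ + w.im * Real.sin θ = ‖w‖ * Real.cos (θ + -(Complex.arg w)) := by
    intro θ
    rw [← sub_eq_add_neg, Real.cos_sub]
    have h2 := Complex.norm_mul_cos_arg w
    have h3 := Complex.norm_mul_sin_arg w
    linear_combination -(Real.cos θ) * h2 - (Real.sin θ) * h3
  simp_rw [h1]
  rw [per_shift (f := fun θ => Real.cos (‖w‖ * Real.cos θ)) (fun θ => by
    simp only [Real.cos_add_two_pi])]
  unfold J0
  have := Real.pi_ne_zero
  field_simp

/-- X1 (the mean value property of correlations) -/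
theorem V_mean {μ : Measure MW} [IsProbabilityMeasure μ] (hs : IsStationary μ)
    (h2 : Integrable (fun f : MW => f 0 ^ 2) μ) (g : Lp ℝ 2 μ)
    (z : ℂ) {r : ℝ} (hr : 0 ≤ r) :
    ∫ ψ in (0:ℝ)..(2 * Real.pi), ⟪V hs h2 (z + r * Complex.exp (ψ * I)), g⟫_ℝ =
      2 * Real.pi * J0 r * ⟪V hs h2 z, g⟫_ℝ := by
  have hQ : MemLp (g : MW → ℝ) 2 μ := Lp.memLp g
  have hU : ∀ y, ⟪V hs h2 y, g⟫_ℝ = ∫ f : MW, f y * g f ∂μ := by
    intro y
    rw [L2.inner_def]
    refine integral_congr_ae ?_
    filter_upwards [V_coe hs h2 y] with f hf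
    rw [hf]
    simp [mul_comm]
  simp_rw [hU, ← ee_exp]
  have hm : AEStronglyMeasurable (fun p : ℝ × MW => p.2 (z + r * ee p.1) * g p.2)
      ((volume.restrict (Set.uIoc 0 (2 * Real.pi))).prod μ) := by
    refine AEStronglyMeasurable.mul ?_ (hQ.1.comp_snd)
    have h3 : Measurable fun p : ℝ × MW => z + r * ee p.1 :=
      (measurable_const.add ((ee_cont.measurable.comp measurable_fst).const_mul _))
    exact (meas_ev.comp (h3.prodMk measurable_snd)).aestronglyMeasurable
  obtain ⟨C, hC, hb⟩ := GB_bound (ρ := ‖z‖ + r) (by positivity)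
  have hG : Integrable (fun f : MW => C * GB (‖z‖ + r) f * |g f|) μ :=
    MemLp.integrable_mul (f := fun f => C * GB (‖z‖ + r) f) (g := fun f => |g f|)
      ((GB_two hs h2 (by positivity)).const_mul C) hQ.abs
  have hfin : IsFiniteMeasure (volume.restrict (Set.uIoc (0:ℝ) (2 * Real.pi))) := by
    refine ⟨?_⟩
    rw [Measure.restrict_apply_univ, Set.uIoc_of_le (by positivity), Real.volume_Ioc]
    exact ENNReal.ofReal_lt_top
  have hone : Integrable (fun _ : ℝ => (1:ℝ)) (volume.restrict (Set.uIoc (0:ℝ) (2 * Real.pi))) :=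
    integrable_const 1
  have hj : Integrable (Function.uncurry fun (ψ : ℝ) (f : MW) => f (z + r * ee ψ) * g f)
      ((volume.restrict (Set.uIoc 0 (2 * Real.pi))).prod μ) := by
    refine (hone.mul_prod hG).mono' hm (Eventually.of_forall fun p => ?_)
    change ‖p.2 (z + r * ee p.1) * g p.2‖ ≤ 1 * (C * GB (‖z‖ + r) p.2 * |g p.2|)
    rw [Real.norm_eq_abs, abs_mul, one_mul]
    refine mul_le_mul_of_nonneg_right (hb _ _ ?_) (abs_nonneg _)
    refine (norm_add_le _ _).trans ?_
    rw [norm_mul, ee_norm, mul_one, Complex.norm_real, Real.norm_eq_abs, abs_of_nonneg hr]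
  rw [intervalIntegral_integral_swap hj, ← integral_const_mul]
  refine integral_congr_ae (Eventually.of_forall fun f => ?_)
  change ∫ ψ in (0:ℝ)..(2 * Real.pi), f (z + r * ee ψ) * g f = _
  rw [intervalIntegral.integral_mul_const]
  have h3 := AA_eq f.2.1 f.2.2 z hr
  unfold AA at h3
  rw [show (∫ ψ in (0:ℝ)..(2 * Real.pi), f (z + r * ee ψ)) = 2 * Real.pi * J0 r * f z from h3]
  ring

end

end Pool.Agent.Helper88.Ip
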