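import Pool.Agent.Helper88.Ip.Pw2a

/-!
# Graf's addition theorem, weak form (not a result)
-/

set_option autoImplicit false
set_option linter.unusedSectionVars false
open MeasureTheory Filter Topology ProbabilityTheory
open scoped ContDiff ENNReal InnerProductSpace

namespace Pool.Agent.Helper88.Ip

open Pool.Agent.N661.BR (MW J0)
open Pool.Agent.Helper37.BC
open Complex (I)

noncomputable section

/-- `∫ cos (m t) (cos t) ^ k cos (r cos t)` -/
def Ck (m k : ℕ) (r : ℝ) : ℝ :=
  ∫ t in (0:ℝ)..(2 * Real.pi), Real.cos (m * t) * Real.cos t ^ k * Real.cos (r * Real.cos t)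

/-- `∫ cos (m t) (cos t) ^ k sin (r cos t)` -/
def Sk (m k : ℕ) (r : ℝ) : ℝ :=
  ∫ t in (0:ℝ)..(2 * Real.pi), Real.cos (m * t) * Real.cos t ^ k * Real.sin (r * Real.cos t)

theorem Ck_deriv (m k : ℕ) (r : ℝ) : HasDerivAt (Ck m k) (-Sk m (k + 1) r) r := by
  unfold Ck Sk
  rw [← intervalIntegral.integral_neg]
  refine deriv_int (F := fun r t => Real.cos (m * t) * Real.cos t ^ k * Real.cos (r * Real.cos t))
    (F' := fun r t => -(Real.cos (m * t) * Real.cos t ^ (k + 1) * Real.sin (r * Real.cos t)))
    (fun r t => ?_) (by unfold Function.uncurry; fun_prop) (fun r => by fun_prop) _ _ r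
  have h1 : HasDerivAt (fun r : ℝ => r * Real.cos t) (Real.cos t) r := by
    have := (hasDerivAt_id' r).mul_const (Real.cos t)
    rwa [one_mul] at this
  refine (h1.cos.const_mul (Real.cos (m * t) * Real.cos t ^ k)).congr_deriv ?_
  ring

theorem Sk_deriv (m k : ℕ) (r : ℝ) : HasDerivAt (Sk m k) (Ck m (k + 1) r) r := by
  unfold Ck Sk
  refine deriv_int (F := fun r t => Real.cos (m * t) * Real.cos t ^ k * Real.sin (r * Real.cos t))
    (F' := fun r t => (Real.cos (m * t) * Real.cos t ^ (k + 1) * Real.cos (r * Real.cos t)))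
    (fun r t => ?_) (by unfold Function.uncurry; fun_prop) (fun r => by fun_prop) _ _ r
  have h1 : HasDerivAt (fun r : ℝ => r * Real.cos t) (Real.cos t) r := by
    have := (hasDerivAt_id' r).mul_const (Real.cos t)
    rwa [one_mul] at this
  refine (h1.sin.const_mul (Real.cos (m * t) * Real.cos t ^ k)).congr_deriv ?_
  ring

/-- not both transforms are identically zero -/
theorem CS_ne (m : ℕ) : ¬ ∀ r : ℝ, Ck m 0 r = 0 ∧ Sk m 0 r = 0 := by
  intro h
  have h1 : ∀ k : ℕ, ∀ r : ℝ, Ck m k r = 0 ∧ Sk m k r = 0 := by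
    intro k
    induction k with
    | zero => exact h
    | succ k ih =>
      intro r
      constructor
      · have e : Sk m k = fun _ => 0 := funext fun r => (ih r).2
        have d := Sk_deriv m k r
        rw [e] at d
        exact d.unique (hasDerivAt_const r 0)
      · have e : Ck m k = fun _ => 0 := funext fun r => (ih r).1
        have d := Ck_deriv m k r
        rw [e] at d
        exact neg_eq_zero.1 (d.unique (hasDerivAt_const r 0))
  have h3 : ∀ p : Polynomial ℝ,
      ∫ t in (0:ℝ)..(2 * Real.pi), Real.cos (m * t) * p.eval (Real.cos t) = 0 := by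
    intro p
    induction p using Polynomial.induction_on' with
    | add p q hp hq =>
      simp_rw [Polynomial.eval_add, mul_add]
      rw [intervalIntegral.integral_add, hp, hq, add_zero]
      · exact Continuous.intervalIntegrable (by fun_prop) _ _
      · exact Continuous.intervalIntegrable (by fun_prop) _ _
    | monomial n a =>
      simp_rw [Polynomial.eval_monomial]
      have e := (h1 n 0).1
      unfold Ck at e
      have e2 : ∀ t : ℝ, Real.cos (m * t) * (a * Real.cos t ^ n) =
          a * (Real.cos (m * t) * Real.cos t ^ n * Real.cos (0 * Real.cos t)) := by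
        intro t
        rw [zero_mul, Real.cos_zero]
        ring
      simp_rw [e2]
      rw [intervalIntegral.integral_const_mul, e, mul_zero]
  have h4 := h3 (Polynomial.Chebyshev.T ℝ (m : ℤ))
  simp_rw [Polynomial.Chebyshev.T_real_cos] at h4
  have h5 : ∀ t : ℝ, Real.cos (m * t) * Real.cos (((m : ℤ) : ℝ) * t) = Real.cos (m * t) ^ 2 := by
    intro t
    push_cast
    ring
  simp_rw [h5] at h4
  have h6 : 0 < ∫ t in (0:ℝ)..(2 * Real.pi), Real.cos (m * t) ^ 2 := by
    refine intervalIntegral.integral_pos (by positivity) (by fun_prop)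
      (fun t _ => sq_nonneg _) ⟨0, ⟨le_rfl, by positivity⟩, ?_⟩
    rw [mul_zero, Real.cos_zero]
    norm_num
  linarith

theorem Ck_neg (m : ℕ) (r : ℝ) : Ck m 0 (-r) = Ck m 0 r := by
  unfold Ck
  simp_rw [neg_mul, Real.cos_neg]

theorem Sk_neg (m : ℕ) (r : ℝ) : Sk m 0 (-r) = -Sk m 0 r := by
  unfold Sk
  simp_rw [neg_mul, Real.sin_neg, mul_neg]
  rw [intervalIntegral.integral_neg]

/-- parity -/
theorem CS_mul (m : ℕ) (r : ℝ) : Ck m 0 r * Sk m 0 r = 0 := by
  have hc : Ck m 0 r = (-1) ^ m * Ck m 0 r := by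
    have h1 := per_refl (f := fun t => Real.cos (m * t) * Real.cos t ^ 0 *
      Real.cos (r * Real.cos t)) (fun t => by simp only [cos_per, Real.cos_add_two_pi]) Real.pi
    unfold Ck
    rw [← intervalIntegral.integral_const_mul, ← h1]
    refine intervalIntegral.integral_congr fun t _ => ?_
    rw [Real.cos_pi_sub, mul_neg, Real.cos_neg, pow_zero, pow_zero, mul_one, mul_one, mul_sub,
      Real.cos_nat_mul_pi_sub, ← mul_assoc]
  have hs : Sk m 0 r = -((-1) ^ m * Sk m 0 r) := by
    have h1 := per_refl (f := fun t => Real.cos (m * t) * Real.cos t ^ 0 *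
      Real.sin (r * Real.cos t)) (fun t => by simp only [cos_per, Real.cos_add_two_pi]) Real.pi
    unfold Sk
    rw [← intervalIntegral.integral_const_mul, ← intervalIntegral.integral_neg, ← h1]
    refine intervalIntegral.integral_congr fun t _ => ?_
    rw [Real.cos_pi_sub, mul_neg, Real.sin_neg, pow_zero, pow_zero, mul_one, mul_one, mul_sub,
      Real.cos_nat_mul_pi_sub]
    ring
  rcases Nat.even_or_odd m with hm | hm
  · rw [hm.neg_one_pow, one_mul] at hs
    have : Sk m 0 r = 0 := by linarith
    rw [this, mul_zero]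
  · rw [hm.neg_one_pow] at hc
    have : Ck m 0 r = 0 := by linarith
    rw [this, zero_mul]

theorem sin_zero (m : ℕ) (r : ℝ) : ∫ t in (0:ℝ)..(2 * Real.pi), Real.sin (m * t) *
    Real.cos (r * Real.cos t) = 0 ∧ ∫ t in (0:ℝ)..(2 * Real.pi), Real.sin (m * t) *
    Real.sin (r * Real.cos t) = 0 := by
  constructor
  · have h1 := per_refl (f := fun t => Real.sin (m * t) *
      Real.cos (r * Real.cos t)) (fun t => by simp only [sin_per, Real.cos_add_two_pi]) 0
    have h3 : ∀ t : ℝ, Real.sin (m * (0 - t)) * Real.cos (r * Real.cos (0 - t)) =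
        -(Real.sin (m * t) * Real.cos (r * Real.cos t)) := by
      intro t
      rw [zero_sub, mul_neg, Real.sin_neg, Real.cos_neg]
      ring
    simp only [h3] at h1
    rw [intervalIntegral.integral_neg] at h1
    linarith
  · have h1 := per_refl (f := fun t => Real.sin (m * t) *
      Real.sin (r * Real.cos t)) (fun t => by simp only [sin_per, Real.cos_add_two_pi]) 0
    have h3 : ∀ t : ℝ, Real.sin (m * (0 - t)) * Real.sin (r * Real.cos (0 - t)) =
        -(Real.sin (m * t) * Real.sin (r * Real.cos t)) := by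
      intro t
      rw [zero_sub, mul_neg, Real.sin_neg, Real.cos_neg]
      ring
    simp only [h3] at h1
    rw [intervalIntegral.integral_neg] at h1
    linarith

/-- the weak form of Graf's theorem -/
theorem graf_eq (m : ℕ) (r : ℝ) :
    2 * Real.pi * ∫ δ in (0:ℝ)..(2 * Real.pi), Real.cos (m * δ) *
      J0 ‖(r : ℂ) * Complex.exp (δ * I) + r‖ = Ck m 0 r ^ 2 - Sk m 0 r ^ 2 := by
  have h1 : ∀ δ : ℝ, 2 * Real.pi * (Real.cos (m * δ) * J0 ‖(r : ℂ) * Complex.exp (δ * I) + r‖) =
      ∫ θ in (0:ℝ)..(2 * Real.pi), Real.cos (m * δ) *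
        Real.cos (r * Real.cos (δ - θ) + r * Real.cos θ) := by
    intro δ
    rw [intervalIntegral.integral_const_mul]
    have h3 := J0_norm ((r : ℂ) * Complex.exp (δ * I) + r)
    have h4 : ∀ θ : ℝ, ((r : ℂ) * Complex.exp (δ * I) + r).re * Real.cos θ +
        ((r : ℂ) * Complex.exp (δ * I) + r).im * Real.sin θ =
        r * Real.cos (δ - θ) + r * Real.cos θ := by
      intro θ
      rw [← ee_exp]
      unfold ee
      rw [Real.cos_sub]
      simp only [Complex.add_re, Complex.mul_re, Complex.ofReal_re, Complex.ofReal_im,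
        Complex.I_re, Complex.I_im, Complex.add_im, Complex.mul_im]
      ring
    simp_rw [h4] at h3
    rw [← h3]
    ring
  rw [← intervalIntegral.integral_const_mul]
  simp_rw [h1]
  rw [swap (by unfold Function.uncurry; fun_prop)]
  -- shift `δ = t + θ`
  have h3 : ∀ θ : ℝ, ∫ δ in (0:ℝ)..(2 * Real.pi), Real.cos (m * δ) *
      Real.cos (r * Real.cos (δ - θ) + r * Real.cos θ) =
      (Ck m 0 r) * (Real.cos (m * θ) * Real.cos (r * Real.cos θ)) -
        (Sk m 0 r) * (Real.cos (m * θ) * Real.sin (r * Real.cos θ)) := by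
    intro θ
    rw [← per_shift (f := fun δ => Real.cos (m * δ) *
      Real.cos (r * Real.cos (δ - θ) + r * Real.cos θ)) (fun t => by
        have : t + 2 * Real.pi - θ = t - θ + 2 * Real.pi := by ring
        simp only [this, cos_per, Real.cos_add_two_pi]) θ]
    have h4 : ∀ t : ℝ, Real.cos (m * (t + θ)) *
        Real.cos (r * Real.cos (t + θ - θ) + r * Real.cos θ) =
        (Real.cos (m * θ) * Real.cos (r * Real.cos θ)) *
            (Real.cos (m * t) * Real.cos t ^ 0 * Real.cos (r * Real.cos t)) -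
        (Real.cos (m * θ) * Real.sin (r * Real.cos θ)) *
            (Real.cos (m * t) * Real.cos t ^ 0 * Real.sin (r * Real.cos t)) -
        (Real.sin (m * θ) * Real.cos (r * Real.cos θ)) *
            (Real.sin (m * t) * Real.cos (r * Real.cos t)) +
        (Real.sin (m * θ) * Real.sin (r * Real.cos θ)) *
            (Real.sin (m * t) * Real.sin (r * Real.cos t)) := by
      intro t
      rw [add_sub_cancel_right, mul_add, Real.cos_add, Real.cos_add]
      ring
    simp_rw [h4]
    rw [intervalIntegral.integral_add (Continuous.intervalIntegrable (by fun_prop) _ _)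
      (Continuous.intervalIntegrable (by fun_prop) _ _),
      intervalIntegral.integral_sub (Continuous.intervalIntegrable (by fun_prop) _ _)
      (Continuous.intervalIntegrable (by fun_prop) _ _),
      intervalIntegral.integral_sub (Continuous.intervalIntegrable (by fun_prop) _ _)
      (Continuous.intervalIntegrable (by fun_prop) _ _),
      intervalIntegral.integral_const_mul, intervalIntegral.integral_const_mul,
      intervalIntegral.integral_const_mul, intervalIntegral.integral_const_mul,
      (sin_zero m r).1, (sin_zero m r).2]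
    unfold Ck Sk
    ring
  simp_rw [h3]
  rw [intervalIntegral.integral_sub (Continuous.intervalIntegrable (by fun_prop) _ _)
      (Continuous.intervalIntegrable (by fun_prop) _ _),
    intervalIntegral.integral_const_mul, intervalIntegral.integral_const_mul]
  have e1 : ∫ θ in (0:ℝ)..(2 * Real.pi), Real.cos (m * θ) * Real.cos (r * Real.cos θ) =
      Ck m 0 r := by
    unfold Ck
    simp_rw [pow_zero, mul_one]
  have e2 : ∫ θ in (0:ℝ)..(2 * Real.pi), Real.cos (m * θ) * Real.sin (r * Real.cos θ) =
      Sk m 0 r := by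
    unfold Sk
    simp_rw [pow_zero, mul_one]
  rw [e1, e2]
  ring

/-- X2 (a Bessel function `J_m` is not identically zero) -/
theorem graf_ne (m : ℕ) : ∃ r s : ℝ, 0 ≤ r ∧ 0 ≤ s ∧
    ∫ δ in (0:ℝ)..(2 * Real.pi), Real.cos (m * δ) * J0 ‖(r : ℂ) * Complex.exp (δ * I) + s‖ ≠ 0 := by
  by_contra hcon
  push Not at hcon
  apply CS_ne m
  have h0 : ∀ r : ℝ, 0 ≤ r → Ck m 0 r = 0 ∧ Sk m 0 r = 0 := by
    intro r hr
    have h1 := graf_eq m r
    rw [hcon r r hr hr, mul_zero] at h1
    have h3 := CS_mul m r
    rcases mul_eq_zero.1 h3 with h | h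
    · refine ⟨h, ?_⟩
      rw [h] at h1
      exact pow_eq_zero_iff (two_ne_zero) |>.1 (by linarith)
    · refine ⟨?_, h⟩
      rw [h] at h1
      exact pow_eq_zero_iff (two_ne_zero) |>.1 (by linarith)
  intro r
  rcases le_total 0 r with hr | hr
  · exact h0 r hr
  · have h1 := h0 (-r) (by linarith)
    rw [Ck_neg, Sk_neg, neg_eq_zero] at h1
    exact h1

/-- X3 -/
theorem graf (U : ℂ → ℝ) (hU : Continuous U)
    (hm : ∀ (z : ℂ) (r : ℝ), 0 ≤ r →
      ∫ ψ in (0:ℝ)..(2 * Real.pi), U (z + r * Complex.exp (ψ * I)) = 2 * Real.pi * J0 r * U z)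
    (m : ℕ)
    (hc : ∀ (x y : ℂ), ∫ φ in (0:ℝ)..(2 * Real.pi), U (x + Complex.exp (φ * I) * y) *
      Real.cos (m * φ) = 0)
    (hsn : ∀ (x y : ℂ), ∫ φ in (0:ℝ)..(2 * Real.pi), U (x + Complex.exp (φ * I) * y) *
      Real.sin (m * φ) = 0) (x : ℂ) : U x = 0 := by
  obtain ⟨r, s, hr, hs, hne⟩ := graf_ne m
  have h1 : ∀ ψ : ℝ, ∫ φ in (0:ℝ)..(2 * Real.pi),
      U (x + Complex.exp (ψ * I) * s + Complex.exp (φ * I) * r) * Real.cos (m * (φ - ψ)) = 0 := by
    intro ψ
    have h3 : ∀ φ : ℝ, U (x + Complex.exp (ψ * I) * s + Complex.exp (φ * I) * r) *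
        Real.cos (m * (φ - ψ)) =
        Real.cos (m * ψ) * (U (x + Complex.exp (ψ * I) * s + Complex.exp (φ * I) * r) *
          Real.cos (m * φ)) +
        Real.sin (m * ψ) * (U (x + Complex.exp (ψ * I) * s + Complex.exp (φ * I) * r) *
          Real.sin (m * φ)) := by
      intro φ
      rw [mul_sub, Real.cos_sub]
      ring
    simp_rw [h3]
    rw [intervalIntegral.integral_add (Continuous.intervalIntegrable (by fun_prop) _ _)
      (Continuous.intervalIntegrable (by fun_prop) _ _), intervalIntegral.integral_const_mul,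
      intervalIntegral.integral_const_mul, hc, hsn]
    ring
  -- shift `φ = δ + ψ`
  have h3 : ∀ ψ : ℝ, ∫ δ in (0:ℝ)..(2 * Real.pi),
      U (x + Complex.exp (ψ * I) * (s + r * Complex.exp (δ * I))) * Real.cos (m * δ) = 0 := by
    intro ψ
    refine Eq.trans ?_ (h1 ψ)
    rw [← per_shift (f := fun φ => U (x + Complex.exp (ψ * I) * s +
      Complex.exp (φ * I) * r) * Real.cos (m * (φ - ψ))) (fun t => ?_) ψ]
    · refine intervalIntegral.integral_congr fun δ _ => ?_
      rw [add_sub_cancel_right]
      congr 2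
      push_cast
      rw [add_mul, Complex.exp_add]
      ring
    · have e1 : t + 2 * Real.pi - ψ = t - ψ + 2 * Real.pi := by ring
      have e2 : Complex.exp (((t + 2 * Real.pi : ℝ) : ℂ) * I) = Complex.exp (t * I) := by
        push_cast
        rw [add_mul, Complex.exp_add, Complex.exp_two_pi_mul_I, mul_one]
      simp only [e1, e2, cos_per]
  have h4 : ∫ ψ in (0:ℝ)..(2 * Real.pi), ∫ δ in (0:ℝ)..(2 * Real.pi),
      U (x + Complex.exp (ψ * I) * (s + r * Complex.exp (δ * I))) * Real.cos (m * δ) = 0 := by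
    simp_rw [h3]
    exact intervalIntegral.integral_zero
  rw [swap (by unfold Function.uncurry; fun_prop)] at h4
  have h5 : ∀ w : ℂ, ∫ ψ in (0:ℝ)..(2 * Real.pi), U (x + Complex.exp (ψ * I) * w) =
      2 * Real.pi * J0 ‖w‖ * U x := by
    intro w
    rw [← hm x ‖w‖ (norm_nonneg w), ← per_shift (f := fun ψ => U (x + (‖w‖ : ℂ) *
      Complex.exp (ψ * I))) (fun t => ?_) (Complex.arg w)]
    · refine intervalIntegral.integral_congr fun ψ _ => ?_
      congr 2
      push_cast
      rw [add_mul, Complex.exp_add]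
      conv_lhs => rw [← Complex.norm_mul_exp_arg_mul_I w]
      ring
    · have e2 : Complex.exp (((t + 2 * Real.pi : ℝ) : ℂ) * I) = Complex.exp (t * I) := by
        push_cast
        rw [add_mul, Complex.exp_add, Complex.exp_two_pi_mul_I, mul_one]
      simp only [e2]
  simp_rw [intervalIntegral.integral_mul_const, h5] at h4
  have h6 : ∀ δ : ℝ, 2 * Real.pi * J0 ‖(s : ℂ) + r * Complex.exp (δ * I)‖ * U x *
      Real.cos (m * δ) = (2 * Real.pi * U x) *
        (Real.cos (m * δ) * J0 ‖(r : ℂ) * Complex.exp (δ * I) + s‖) := by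
    intro δ
    rw [add_comm (s : ℂ)]
    ring
  simp_rw [h6] at h4
  rw [intervalIntegral.integral_const_mul] at h4
  rcases mul_eq_zero.1 h4 with h | h
  · have := Real.pi_pos
    rcases mul_eq_zero.1 h with h7 | h7
    · linarith
    · exact h7
  · exact absurd h hne

end

end Pool.Agent.Helper88.Ip
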